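import Pool.Agent.Helper9.AWMain
import Pool.Agent.Helper9.AWExplicit

/-! Classification of the irreducible modules of polynomial type over the Askey-Wilson algebra,
over any field and for any choice of the eight scalars. -/

set_option autoImplicit false
set_option linter.unusedVariables false

open Pool.Agent.Helper9.AW

universe u v w

theorem Pool.Agent.Results.MP_af5c07_al.Classification.result {K : Type u} [Field K]
    (s : Scalars K) :
    (∀ (V : Type v) [AddCommGroup V] [Module K V] [Module (AwAlg s) V]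
        [IsScalarTower K (AwAlg s) V], IsSimpleModule (AwAlg s) V → PolyType s V →
      ∃ D : Arr K, D.Admissible s ∧ D.IrrType ∧ Realizes s D V) ∧
    (∀ D : Arr K, D.Admissible s →
      ∃ (V : Type u) (_ : AddCommGroup V) (_ : Module K V) (_ : Module (AwAlg s) V)
        (_ : IsScalarTower K (AwAlg s) V), Realizes s D V) ∧
    (∀ (D : Arr K) (V : Type v) [AddCommGroup V] [Module K V] [Module (AwAlg s) V]
        [IsScalarTower K (AwAlg s) V], D.Admissible s → Realizes s D V →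
      PolyType s V ∧ (IsSimpleModule (AwAlg s) V ↔ D.IrrType)) ∧
    (∀ (D D' : Arr K) (V : Type v) (V' : Type w) [AddCommGroup V] [Module K V]
        [Module (AwAlg s) V] [IsScalarTower K (AwAlg s) V] [AddCommGroup V'] [Module K V']
        [Module (AwAlg s) V'] [IsScalarTower K (AwAlg s) V'],
        D.Admissible s → D'.Admissible s → Realizes s D V → Realizes s D' V' →
        IsSimpleModule (AwAlg s) V → IsSimpleModule (AwAlg s) V' →
      (Nonempty (V ≃ₗ[AwAlg s] V') ↔ D.Equivalent s D')) ∧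
    (∀ D : Arr K, D.Admissible s → 2 ≤ D.N →
      (∀ j : ℕ, (j : ℕ∞) < D.N → D.θ j ≠ D.pre s j → D.θ j ≠ D.θ (j + 1) →
        D.a j = s.R (D.θ j) / ((D.θ j - D.pre s j) * (D.θ j - D.θ (j + 1)))) ∧
      (∀ j : ℕ, ((j + 1 : ℕ) : ℕ∞) < D.N → D.θ (j + 1) ≠ D.θ j → D.θ (j + 1) ≠ D.pre s j →
        D.θ (j + 2) ≠ D.θ j →
        D.w (j + 1) = (D.κ s - s.ρ * D.θ j * D.θ (j + 1) - s.η * (D.θ j + D.θ (j + 1)) +
          s.R (D.θ j) * s.R (D.θ (j + 1)) / (D.θ (j + 1) - D.θ j) ^ 2) /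
            ((D.θ (j + 1) - D.pre s j) * (D.θ (j + 2) - D.θ j))) ∧
      (∀ q : AlgebraicClosure K, q ≠ 0 → q ^ 2 ≠ 1 →
        algebraMap K (AlgebraicClosure K) s.β = q + q⁻¹ →
        ∃ b c d : AlgebraicClosure K,
          (∀ j : ℕ, algebraMap K (AlgebraicClosure K) (D.θ j) = c + b * q ^ j + d * q⁻¹ ^ j) ∧
          (2 - (q + q⁻¹)) * c = algebraMap K (AlgebraicClosure K) s.γs ∧
          (q - q⁻¹) ^ 2 * (b * d) = -(algebraMap K (AlgebraicClosure K) s.ρs +
            algebraMap K (AlgebraicClosure K) s.γs * c)) ∧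
      (s.β = 2 → ∀ j : ℕ, D.θ j = D.θ 0 + j * (D.θ 1 - D.θ 0) + (j.choose 2 : ℕ) * s.γs) ∧
      (s.β = -2 → ∀ j : ℕ,
        D.θ j = (-1) ^ j * (D.θ 0 - j * (D.θ 0 + D.θ 1) + (j / 2 : ℕ) * s.γs))) := by
  refine ⟨?_, ?_, ?_, ?_, ?_⟩
  · intro V _ _ _ _ hS hP
    have : Nontrivial V := IsSimpleModule.nontrivial (AwAlg s) V
    obtain ⟨D, v, T⟩ := tri_of_polyType s hP
    obtain ⟨D', hD', T'⟩ := exists_admissible T (isAW_act s)
    exact ⟨D', hD', (irr_iff T' hD').mp ((simple_iff s).mp hS),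
      (realizes_iff s hD').mpr ⟨v, T'⟩⟩
  · intro D hD
    obtain ⟨hw, pos⟩ := admissible_hw hD
    obtain ⟨A, B, v, T⟩ := exists_tri hw pos
    obtain ⟨i1, i2, hA, hB⟩ := exists_module s A B (isAW_of_admissible T hD)
    refine ⟨{j : ℕ // (j : ℕ∞) < D.N} →₀ K, inferInstance, inferInstance, i1, i2, v, T.vz, T.ind,
      top_le_iff.mp T.spn, fun j => ?_, fun j => ?_⟩
    · rw [hB, T.hB]
    · rw [hA, T.hA]
  · intro D V _ _ _ _ hD hR
    obtain ⟨v, T⟩ := (realizes_iff s hD).mp hR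
    exact ⟨polyType_of_tri s T, (simple_iff s).trans (irr_iff T hD)⟩
  · intro D D' V V' _ _ _ _ _ _ _ _ hD hD' hR hR' hS hS'
    obtain ⟨v, T⟩ := (realizes_iff s hD).mp hR
    obtain ⟨v', T'⟩ := (realizes_iff s hD').mp hR'
    exact (iso_iff s).trans (iso_iff_equivalent T hD T' hD' ((simple_iff s).mp hS)
      ((simple_iff s).mp hS'))
  · intro D hD h2
    have C : Closed s D := by
      rcases hD with h | h
      · rw [h.1] at h2
        exact absurd h2 (by norm_num)
      · exact h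
    exact ⟨fun j hj h1 h2 => explicit_a C j hj h1 h2,
      fun j hj h0 h1 h2 => explicit_w C j hj h0 h1 h2,
      fun q h0 h1 h2 => explicit_q C q h0 h1 h2, fun h j => explicit_two C h j,
      fun h j => explicit_neg_two C h j⟩
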